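import Mathlib.Data.Nat.Digits.Defs
import Mathlib.Algebra.BigOperators.Group.Finset.Basic
import Mathlib.Data.Finset.Card
import Mathlib.Algebra.Order.Group.Unbundled.Abs
import Mathlib.Algebra.Order.Group.Unbundled.Int
import Mathlib.Tactic.NormNum

/-!
# MP_f4b4d0: the Thue-Morse partition does not minimise the next power-sum defect

For `n = 7` an explicit partition of `{0, …, 127}` with property `P_7` has a smaller defect
than the Thue-Morse partition.
-/

namespace Pool.Agent.Results.MP_f4b4d0_co.Disproof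

open Finset

/-- `{S, T}` is a partition of `{0, 1, …, 2^n - 1}` with property `P_n`. -/
def HasP (n : ℕ) (S T : Finset ℕ) : Prop :=
  S ∪ T = range (2 ^ n) ∧ S ∩ T = ∅ ∧ ∀ i < n, ∑ s ∈ S, s ^ i = ∑ t ∈ T, t ^ i

instance (n : ℕ) (S T : Finset ℕ) : Decidable (HasP n S T) := by
  unfold HasP
  infer_instance

/-- The defect `D(S, T) = ∑ s^n - ∑ t^n`. -/
def defect (n : ℕ) (S T : Finset ℕ) : ℤ := ∑ s ∈ S, (s : ℤ) ^ n - ∑ t ∈ T, (t : ℤ) ^ n

/-- The Thue-Morse class `{k < 2^n : the number of 1s in the binary expansion of k is ≡ c mod 2}`. -/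
def thueMorse (c n : ℕ) : Finset ℕ := (range (2 ^ n)).filter fun k => (Nat.digits 2 k).count 1 % 2 = c

/-- the explicit set -/
def S7 : Finset ℕ := {0, 3, 4, 7, 9, 11, 12, 15, 17, 18, 19, 21, 24, 27, 30, 32, 33, 35, 36, 38, 39,
  42, 44, 47, 48, 52, 54, 56, 57, 59, 60, 61, 62, 63, 69, 72, 74, 76, 77, 78, 81, 82, 84, 86, 87,
  90, 93, 96, 98, 99, 101, 102, 104, 105, 107, 111, 113, 114, 117, 119, 121, 122, 125, 126}

theorem hasP_S7 : HasP 7 S7 (range 128 \ S7) := by decide +kernel

theorem defect_S7 : defect 7 S7 (range 128 \ S7) = 10445460480 := by decide +kernel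

theorem defect_TM : defect 7 (thueMorse 0 7) (thueMorse 1 7) = -10569646080 := by decide +kernel

/-- The Thue-Morse partition is not a minimiser: there are `n ≥ 1` and a partition `{S, T}` of
`{0, …, 2^n - 1}` with property `P_n`, different from the Thue-Morse partition (in either
order), whose defect is strictly smaller in absolute value (here `n = 7`). -/
theorem result : ∃ n : ℕ, 1 ≤ n ∧ ∃ S T : Finset ℕ, HasP n S T ∧
    ¬ (S = thueMorse 0 n ∧ T = thueMorse 1 n) ∧ ¬ (S = thueMorse 1 n ∧ T = thueMorse 0 n) ∧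
    |defect n S T| < |defect n (thueMorse 0 n) (thueMorse 1 n)| := by
  have hlt : |defect 7 S7 (range 128 \ S7)| < |defect 7 (thueMorse 0 7) (thueMorse 1 7)| := by
    rw [defect_S7, defect_TM]
    norm_num
  refine ⟨7, by norm_num, S7, range 128 \ S7, hasP_S7, ?_, ?_, hlt⟩
  · rintro ⟨h1, h2⟩
    rw [← h1, ← h2] at hlt
    exact lt_irrefl _ hlt
  · rintro ⟨h1, h2⟩
    rw [← h1, ← h2] at hlt
    unfold defect at hlt
    rw [← abs_neg, neg_sub] at hlt
    exact lt_irrefl _ hlt

end Pool.Agent.Results.MP_f4b4d0_co.Disproof
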